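import Pool.Agent.V11113.RieszOrder

/-!
# A universal ordering for operator representations of Gabor frames

Every Gabor frame which has a bounded representation as an operator orbit in some ordering has one
in every ordering. So every ordering is universal.
-/

set_option autoImplicit false

open MeasureTheory

namespace Pool.Agent.Results.MP_5c6457_an.UniversalOrdering

/-- The Hilbert space of square integrable complex functions on the real line. -/
noncomputable abbrev L2 := Lp ℂ 2 (volume : Measure ℝ)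

/-- The family `f` is the Gabor system of `g` with translation step `a` and modulation step `b`:
`f (m, n)` is the function `x ↦ exp (2 π i m b x) g (x - n a)`. -/
def IsGaborSystem (a b : ℝ) (g : L2) (f : ℤ × ℤ → L2) : Prop :=
  ∀ m n : ℤ, (f (m, n) : ℝ → ℂ) =ᵐ[volume]
    fun x => Complex.exp (2 * Real.pi * Complex.I * (m * b * x)) * (g : ℝ → ℂ) (x - n * a)

/-- Frame: there are bounds `A, B > 0` with `A ‖x‖² ≤ ∑ |⟨f i, x⟩|² ≤ B ‖x‖²` for all `x`
(and the sum converges). -/
def IsFrame {H : Type*} [NormedAddCommGroup H] [InnerProductSpace ℂ H] {ι : Type*}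
    (f : ι → H) : Prop :=
  ∃ A B : ℝ, 0 < A ∧ 0 < B ∧ ∀ x : H, Summable (fun i => ‖inner ℂ (f i) x‖ ^ 2) ∧
    A * ‖x‖ ^ 2 ≤ ∑' i, ‖inner ℂ (f i) x‖ ^ 2 ∧ ∑' i, ‖inner ℂ (f i) x‖ ^ 2 ≤ B * ‖x‖ ^ 2

/-- The sequence `F` (indexed by `ℕ` or by `ℤ`) is the orbit of a bounded operator: there is a
bounded linear operator `T` from the linear span of `F` to the space with `T (F k) = F (k + 1)` for
all indices `k`. -/
def IsBoundedOrbit {H : Type*} [NormedAddCommGroup H] [InnerProductSpace ℂ H]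
    {I : Type*} [Add I] [One I] (F : I → H) : Prop :=
  ∃ T : Submodule.span ℂ (Set.range F) →L[ℂ] H,
    ∀ k, T ⟨F k, Submodule.subset_span ⟨k, rfl⟩⟩ = F (k + 1)

/-- Some ordering of the family by the index set `I` has a bounded representation. -/
def AdmitsBounded {H : Type*} [NormedAddCommGroup H] [InnerProductSpace ℂ H]
    (I : Type) [Add I] [One I] (f : ℤ × ℤ → H) : Prop :=
  ∃ σ : I ≃ ℤ × ℤ, IsBoundedOrbit (fun k => f (σ k))

/-- The ordering `σ` of the family `f` has a bounded representation. -/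
def OrderingBounded {H : Type*} [NormedAddCommGroup H] [InnerProductSpace ℂ H]
    {I : Type} [Add I] [One I] (f : ℤ × ℤ → H) (σ : I ≃ ℤ × ℤ) : Prop :=
  IsBoundedOrbit (fun k => f (σ k))

/-- The class of Gabor frames (with steps `a`, `b` and window `g`, the frame being `f`) for which
some ordering by the index set `I` has a bounded representation. -/
def InClass (I : Type) [Add I] [One I] (a b : ℝ) (g : L2) (f : ℤ × ℤ → L2) : Prop :=
  0 < a ∧ 0 < b ∧ IsGaborSystem a b g f ∧ IsFrame f ∧ AdmitsBounded I f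

/-- The ordering `σ` is universal: it gives a bounded representation of every Gabor frame in the
class. -/
def IsUniversal {I : Type} [Add I] [One I] (σ : I ≃ ℤ × ℤ) : Prop :=
  ∀ (a b : ℝ) (g : L2) (f : ℤ × ℤ → L2), InClass I a b g f → OrderingBounded f σ

theorem result : (∃ σ : ℕ ≃ ℤ × ℤ, IsUniversal σ) ∧ (∃ σ : ℤ ≃ ℤ × ℤ, IsUniversal σ) ∧
    (∀ σ : ℕ ≃ ℤ × ℤ, IsUniversal σ) ∧ (∀ σ : ℤ ≃ ℤ × ℤ, IsUniversal σ) := by
  have h1 : ∀ σ : ℕ ≃ ℤ × ℤ, IsUniversal σ := by
    rintro σ a b g f ⟨ha, hb, hf, hframe, h⟩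
    obtain ⟨h1, h2, h3⟩ := Pool.Agent.V11113.gabor_iff a b ha hb g f hf hframe
    exact (h3 (h1 h)).1 σ
  have h2 : ∀ σ : ℤ ≃ ℤ × ℤ, IsUniversal σ := by
    rintro σ a b g f ⟨ha, hb, hf, hframe, h⟩
    obtain ⟨h1, h2, h3⟩ := Pool.Agent.V11113.gabor_iff a b ha hb g f hf hframe
    exact (h3 (h2 h)).2 σ
  have e1 : Nonempty (ℕ ≃ ℤ × ℤ) := nonempty_equiv_of_countable
  have e2 : Nonempty (ℤ ≃ ℤ × ℤ) := nonempty_equiv_of_countable
  exact ⟨⟨e1.some, h1 _⟩, ⟨e2.some, h2 _⟩, h1, h2⟩

end Pool.Agent.Results.MP_5c6457_an.UniversalOrdering
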